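import Mathlib

/-!
# MP_763eff: when do the lcm-analogue and the Lucas binomial coefficient agree?
-/

namespace Pool.Agent.Results.MP_763eff_nt.Criterion

open Finset

/-- The Lucas sequence `U_0 = 0`, `U_1 = 1`, `U_{n+2} = P U_{n+1} - Q U_n`. -/
def U (P Q : ℤ) : ℕ → ℤ
  | 0 => 0
  | 1 => 1
  | (n + 2) => P * U P Q (n + 1) - Q * U P Q n

variable {P Q : ℤ}

lemma U_add (m n : ℕ) : U P Q (m + n + 1) = U P Q (m + 1) * U P Q (n + 1) - Q * U P Q m * U P Q n := by
  induction n using Nat.twoStepInduction with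
  | zero => simp [U]
  | one =>
    rw [show m + 1 + 1 = m + 2 by ring]
    simp [U]; ring
  | more n ih1 ih2 =>
    have e1 : U P Q (m + (n + 2) + 1) = P * U P Q (m + (n + 1) + 1) - Q * U P Q (m + n + 1) := by
      rw [show m + (n + 2) + 1 = m + n + 1 + 2 by ring]
      rw [U, show m + n + 1 + 1 = m + (n + 1) + 1 by ring]
    have e2 : U P Q (n + 2 + 1) = P * U P Q (n + 1 + 1) - Q * U P Q (n + 1) := by
      rw [show n + 2 + 1 = n + 1 + 2 by ring, U]
    have e3 : U P Q (n + 2) = P * U P Q (n + 1) - Q * U P Q n := by rw [U]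
    rw [e1, ih1, ih2, e2, e3]
    ring

lemma coprime_Q (h : IsCoprime P Q) (n : ℕ) : IsCoprime (U P Q (n + 1)) Q := by
  induction n with
  | zero => simp [U]; exact isCoprime_one_left
  | succ n ih =>
    rw [show n + 1 + 1 = n + 2 by ring, U]
    have := (h.mul_left ih)
    have h2 : IsCoprime (P * U P Q (n + 1) + Q * (-U P Q n)) Q := IsCoprime.add_mul_left_left this _
    have h3 : P * U P Q (n + 1) - Q * U P Q n = P * U P Q (n + 1) + Q * (-U P Q n) := by ring
    rw [h3]; exact h2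

lemma coprime_succ (h : IsCoprime P Q) (n : ℕ) : IsCoprime (U P Q n) (U P Q (n + 1)) := by
  induction n with
  | zero => simp [U]; exact isCoprime_one_right
  | succ n ih =>
    have h1 := coprime_Q h n
    have h2 : IsCoprime (U P Q (n + 1)) (Q * U P Q n) := h1.mul_right ih.symm
    have h3 : U P Q (n + 1 + 1) = -(Q * U P Q n) + U P Q (n + 1) * P := by
      rw [show n + 1 + 1 = n + 2 by ring, U]; ring
    rw [h3]
    exact IsCoprime.add_mul_left_right (h2.neg_right) _

/-- absolute value of the Lucas sequence -/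
def u (P Q : ℤ) (n : ℕ) : ℕ := (U P Q n).natAbs

lemma gcd_add (h : IsCoprime P Q) (m n : ℕ) :
    Nat.gcd (u P Q (m + n)) (u P Q n) = Nat.gcd (u P Q m) (u P Q n) := by
  rcases Nat.eq_zero_or_pos n with h0 | h0
  · subst h0; simp
  obtain ⟨n, rfl⟩ : ∃ n', n = n' + 1 := ⟨n - 1, by omega⟩
  have h1 := U_add (P := P) (Q := Q) m n
  have h2 : IsCoprime (U P Q (n + 1)) (Q * U P Q n) := (coprime_Q h n).mul_right (coprime_succ h n).symm
  unfold u
  change Int.gcd (U P Q (m + (n + 1))) (U P Q (n + 1)) = Int.gcd (U P Q m) (U P Q (n + 1))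
  have h3 : U P Q (m + (n + 1)) = -(Q * U P Q n) * U P Q m + U P Q (m + 1) * U P Q (n + 1) := by
    rw [← add_assoc, h1]; ring
  rw [h3, Int.gcd_add_mul_right_left]
  have h4 : IsCoprime (-(Q * U P Q n)) (U P Q (n + 1)) := (h2.neg_right).symm
  have h5 : Int.gcd (-(Q * U P Q n)) (U P Q (n + 1)) = 1 := Int.isCoprime_iff_gcd_eq_one.1 h4
  exact Int.gcd_mul_right_left_of_gcd_eq_one h5

lemma gcd_add_mul (h : IsCoprime P Q) (m n k : ℕ) :
    Nat.gcd (u P Q (m + k * n)) (u P Q n) = Nat.gcd (u P Q m) (u P Q n) := by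
  induction k with
  | zero => simp
  | succ k ih => rw [← ih, add_mul, ← add_assoc, one_mul, gcd_add h]

lemma gcd_u (h : IsCoprime P Q) (m n : ℕ) : Nat.gcd (u P Q m) (u P Q n) = u P Q (Nat.gcd m n) := by
  induction m, n using Nat.gcd.induction with
  | H0 n => simp [u, U]
  | H1 m n _ ih =>
    rw [← Nat.gcd_rec m n] at ih
    rw [← ih, Nat.gcd_comm (u P Q m)]
    conv_lhs => rw [← Nat.mod_add_div' n m]
    exact gcd_add_mul h _ m _

lemma u_dvd (h : IsCoprime P Q) {m n : ℕ} (hmn : m ∣ n) : u P Q m ∣ u P Q n := by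
  have := gcd_u h m n
  rw [Nat.gcd_eq_left hmn] at this
  rw [← this]
  exact Nat.gcd_dvd_right _ _

/-! ## Strong divisibility sequences of positive integers -/

section sds

variable (v : ℕ → ℕ) (hpos : ∀ n, 1 ≤ n → 0 < v n) (hg : ∀ m n, Nat.gcd (v m) (v n) = v (Nat.gcd m n))

/-- the lcm of the proper divisor terms -/
def Lp (v : ℕ → ℕ) (m : ℕ) : ℕ := m.properDivisors.lcm v

/-- the primitive part -/
def A (v : ℕ → ℕ) (m : ℕ) : ℕ := v m / Lp v m

include hg in
lemma v_dvd {m n : ℕ} (hmn : m ∣ n) : v m ∣ v n := by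
  have := hg m n
  rw [Nat.gcd_eq_left hmn] at this
  rw [← this]
  exact Nat.gcd_dvd_right _ _

include hg in
lemma Lp_dvd (m : ℕ) : Lp v m ∣ v m :=
  Finset.lcm_dvd fun _ hd => v_dvd v hg (Nat.mem_properDivisors.1 hd).1

include hg in
lemma A_mul (m : ℕ) : A v m * Lp v m = v m := Nat.div_mul_cancel (Lp_dvd v hg m)

include hpos hg in
lemma Lp_pos {m : ℕ} (hm : 1 ≤ m) : 0 < Lp v m := by
  rcases Nat.eq_zero_or_pos (Lp v m) with h | h
  · have := A_mul v hg m
    rw [h, mul_zero] at this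
    have := hpos m hm
    omega
  · exact h

include hpos hg in
lemma A_pos {m : ℕ} (hm : 1 ≤ m) : 0 < A v m := by
  rcases Nat.eq_zero_or_pos (A v m) with h | h
  · have := A_mul v hg m
    rw [h, zero_mul] at this
    have := hpos m hm
    omega
  · exact h

include hpos hg in
lemma A_eq_one {m : ℕ} (hm : 1 ≤ m) : A v m = 1 ↔ v m = Lp v m := by
  have h1 := A_mul v hg m
  have h2 := Lp_pos v hpos hg hm
  constructor
  · intro h; rw [← h1, h, one_mul]
  · intro h
    apply Nat.eq_of_mul_eq_mul_right h2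
    rw [h1, one_mul, h]

lemma gcd_lcm_dvd (x a b : ℕ) : Nat.gcd x (Nat.lcm a b) ∣ Nat.lcm (Nat.gcd x a) (Nat.gcd x b) := by
  rcases Nat.eq_zero_or_pos a with ha | ha
  · subst ha; simp [Nat.lcm_zero_left]
    exact Nat.dvd_lcm_left _ _
  rcases Nat.eq_zero_or_pos b with hb | hb
  · subst hb; simp [Nat.lcm_zero_right]
    exact Nat.dvd_lcm_right _ _
  rcases Nat.eq_zero_or_pos x with hx | hx
  · subst hx; simp
  have h1 : Nat.lcm a b ≠ 0 := Nat.lcm_ne_zero ha.ne' hb.ne'
  have h2 : Nat.gcd x a ≠ 0 := (Nat.gcd_pos_of_pos_left _ hx).ne'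
  have h3 : Nat.gcd x b ≠ 0 := (Nat.gcd_pos_of_pos_left _ hx).ne'
  have h4 : Nat.gcd x (Nat.lcm a b) ≠ 0 := (Nat.gcd_pos_of_pos_left _ hx).ne'
  have h5 : Nat.lcm (Nat.gcd x a) (Nat.gcd x b) ≠ 0 := Nat.lcm_ne_zero h2 h3
  rw [← Nat.factorization_le_iff_dvd h4 h5, Nat.factorization_gcd hx.ne' h1,
    Nat.factorization_lcm ha.ne' hb.ne', Nat.factorization_lcm h2 h3,
    Nat.factorization_gcd hx.ne' ha.ne', Nat.factorization_gcd hx.ne' hb.ne']
  intro q
  simp only [Finsupp.inf_apply, Finsupp.sup_apply]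
  exact (inf_sup_left _ _ _).le

lemma gcd_finset_lcm_dvd (x : ℕ) (s : Finset ℕ) :
    Nat.gcd x (s.lcm v) ∣ s.lcm (fun i => Nat.gcd x (v i)) := by
  classical
  induction s using Finset.induction_on with
  | empty => simp
  | insert a s _ ih =>
    rw [Finset.lcm_insert, Finset.lcm_insert]
    refine (gcd_lcm_dvd x (v a) (s.lcm v)).trans ?_
    exact Nat.lcm_dvd (Nat.dvd_lcm_left _ _) (ih.trans (Nat.dvd_lcm_right _ _))

include hpos hg in
/-- lcm over a divisor-closed set is the product of the primitive parts -/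
lemma lcm_closed (s : Finset ℕ) : (∀ m ∈ s, 1 ≤ m ∧ ∀ d, d ∣ m → d ∈ s) →
    s.lcm v = ∏ m ∈ s, A v m := by
  induction s using Finset.induction_on_max with
  | empty => intro _; simp
  | insert a s hmax ih =>
    intro hcl
    have ha : a ∉ s := fun h => lt_irrefl _ (hmax a h)
    have ha1 := (hcl a (Finset.mem_insert_self a s)).1
    have hcl' : ∀ m ∈ s, 1 ≤ m ∧ ∀ d, d ∣ m → d ∈ s := by
      intro m hm
      have h1 := hcl m (Finset.mem_insert_of_mem hm)
      refine ⟨h1.1, fun d hd => ?_⟩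
      have h2 := h1.2 d hd
      rcases Finset.mem_insert.1 h2 with h3 | h3
      · exfalso
        have h4 := Nat.le_of_dvd h1.1 hd
        have h5 := hmax m hm
        omega
      · exact h3
    rw [Finset.lcm_insert, Finset.prod_insert ha, ← ih hcl']
    have hgcd : Nat.gcd (v a) (s.lcm v) = Lp v a := by
      apply Nat.dvd_antisymm
      · refine (gcd_finset_lcm_dvd v (v a) s).trans ?_
        apply Finset.lcm_dvd
        intro i hi
        rw [hg]
        apply Finset.dvd_lcm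
        rw [Nat.mem_properDivisors]
        refine ⟨Nat.gcd_dvd_left _ _, ?_⟩
        have h1 := Nat.gcd_le_right a (hcl' i hi).1
        have h2 := hmax i hi
        omega
      · apply Finset.lcm_dvd
        intro d hd
        rw [Nat.mem_properDivisors] at hd
        apply Nat.dvd_gcd
        · exact v_dvd v hg hd.1
        · apply Finset.dvd_lcm
          rcases Finset.mem_insert.1 ((hcl a (Finset.mem_insert_self a s)).2 d hd.1) with h3 | h3
          · omega
          · exact h3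
    change Nat.lcm (v a) (s.lcm v) = _
    have h1 : Lp v a * Nat.lcm (v a) (s.lcm v) = Lp v a * (A v a * s.lcm v) := by
      rw [← hgcd, Nat.gcd_mul_lcm, hgcd, ← mul_assoc, mul_comm (Lp v a), A_mul v hg]
    exact Nat.eq_of_mul_eq_mul_left (Lp_pos v hpos hg ha1) h1

include hpos hg in
lemma v_eq_prod {n : ℕ} (hn : 1 ≤ n) : v n = ∏ m ∈ n.divisors, A v m := by
  rw [← lcm_closed v hpos hg]
  · apply Nat.dvd_antisymm
    · exact Finset.dvd_lcm (Nat.mem_divisors_self n (by omega))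
    · exact Finset.lcm_dvd fun d hd => v_dvd v hg (Nat.dvd_of_mem_divisors hd)
  · intro m hm
    refine ⟨Nat.pos_of_mem_divisors hm, fun d hd => ?_⟩
    rw [Nat.mem_divisors] at *
    exact ⟨hd.trans hm.1, hm.2⟩

/-- number of multiples of `m` in `W` -/
def cnt (W : Finset ℕ) (m : ℕ) : ℕ := (W.filter (fun i => m ∣ i)).card

include hpos hg in
lemma prod_W (N : ℕ) (W : Finset ℕ) (hW : W ⊆ Finset.Icc 1 N) :
    ∏ i ∈ W, v i = ∏ m ∈ Finset.Icc 1 N, A v m ^ cnt W m := by
  have h1 : ∀ i ∈ W, v i = ∏ m ∈ Finset.Icc 1 N, if m ∣ i then A v m else 1 := by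
    intro i hi
    have hi' := Finset.mem_Icc.1 (hW hi)
    rw [v_eq_prod v hpos hg hi'.1, ← Finset.prod_filter]
    apply Finset.prod_congr _ (fun _ _ => rfl)
    ext d
    rw [Nat.mem_divisors, Finset.mem_filter, Finset.mem_Icc]
    constructor
    · rintro ⟨hd, _⟩
      exact ⟨⟨Nat.pos_of_dvd_of_pos hd (by omega), (Nat.le_of_dvd (by omega) hd).trans hi'.2⟩, hd⟩
    · rintro ⟨_, hd⟩
      exact ⟨hd, by omega⟩
  rw [Finset.prod_congr rfl h1, Finset.prod_comm]
  apply Finset.prod_congr rfl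
  intro m _
  rw [← Finset.prod_filter, Finset.prod_const, cnt]

include hpos hg in
lemma lcm_W (N : ℕ) (W : Finset ℕ) (hW : W ⊆ Finset.Icc 1 N) :
    W.lcm v = ∏ m ∈ Finset.Icc 1 N, A v m ^ min 1 (cnt W m) := by
  have h1 : W.lcm v = ((Finset.Icc 1 N).filter (fun m => 1 ≤ cnt W m)).lcm v := by
    apply Nat.dvd_antisymm
    · apply Finset.lcm_dvd
      intro i hi
      apply Finset.dvd_lcm
      rw [Finset.mem_filter]
      refine ⟨hW hi, Finset.card_pos.2 ⟨i, ?_⟩⟩
      rw [Finset.mem_filter]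
      exact ⟨hi, dvd_rfl⟩
    · apply Finset.lcm_dvd
      intro m hm
      rw [Finset.mem_filter] at hm
      obtain ⟨i, hi⟩ := Finset.card_pos.1 hm.2
      rw [Finset.mem_filter] at hi
      exact (v_dvd v hg hi.2).trans (Finset.dvd_lcm hi.1)
  rw [h1, lcm_closed v hpos hg, Finset.prod_filter]
  · apply Finset.prod_congr rfl
    intro m _
    split_ifs with h
    · rw [min_eq_left h, pow_one]
    · rw [show cnt W m = 0 by omega]; simp
  · intro m hm
    rw [Finset.mem_filter, Finset.mem_Icc] at hm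
    refine ⟨hm.1.1, fun d hd => ?_⟩
    rw [Finset.mem_filter, Finset.mem_Icc]
    refine ⟨⟨Nat.pos_of_dvd_of_pos hd hm.1.1, (Nat.le_of_dvd hm.1.1 hd).trans hm.1.2⟩, ?_⟩
    refine hm.2.trans (Finset.card_le_card ?_)
    intro i hi
    rw [Finset.mem_filter] at *
    exact ⟨hi.1, hd.trans hi.2⟩

include hpos hg in
lemma prod_eq_iff (N : ℕ) (W V : Finset ℕ) (hW : W ⊆ Finset.Icc 1 N) (hV : V ⊆ Finset.Icc 1 N)
    (hle : ∀ m ∈ Finset.Icc 1 N, min 1 (cnt W m) + cnt V m ≤ cnt W m + min 1 (cnt V m)) :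
    (∏ i ∈ W, v i) * V.lcm v = W.lcm v * ∏ i ∈ V, v i ↔
      ∀ m ∈ Finset.Icc 1 N, A v m = 1 ∨
        min 1 (cnt W m) + cnt V m = cnt W m + min 1 (cnt V m) := by
  rw [prod_W v hpos hg N W hW, lcm_W v hpos hg N V hV, lcm_W v hpos hg N W hW,
    prod_W v hpos hg N V hV, ← Finset.prod_mul_distrib, ← Finset.prod_mul_distrib]
  simp only [← pow_add]
  constructor
  · intro h m hm
    have h2 : ∀ m ∈ Finset.Icc 1 N, A v m ^ (cnt W m + min 1 (cnt V m)) =
        A v m ^ (min 1 (cnt W m) + cnt V m) *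
          A v m ^ (cnt W m + min 1 (cnt V m) - (min 1 (cnt W m) + cnt V m)) := by
      intro m hm
      rw [← pow_add]; congr 1
      have := hle m hm
      omega
    rw [Finset.prod_congr rfl h2, Finset.prod_mul_distrib] at h
    have h3 : 0 < ∏ m ∈ Finset.Icc 1 N, A v m ^ (min 1 (cnt W m) + cnt V m) :=
      Finset.prod_pos fun m hm => Nat.pow_pos (A_pos v hpos hg (Finset.mem_Icc.1 hm).1)
    have h4 : ∏ m ∈ Finset.Icc 1 N,
        A v m ^ (cnt W m + min 1 (cnt V m) - (min 1 (cnt W m) + cnt V m)) = 1 := by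
      have := Nat.eq_of_mul_eq_mul_left h3 (h.trans (mul_one _).symm)
      exact this
    have h5 := (Finset.prod_eq_one_iff.1 h4) m hm
    rcases Nat.eq_zero_or_pos (cnt W m + min 1 (cnt V m) - (min 1 (cnt W m) + cnt V m)) with h6 | h6
    · right
      have := hle m hm
      omega
    · left
      exact (Nat.pow_eq_one.1 h5).resolve_right (by omega)
  · intro h
    apply Finset.prod_congr rfl
    intro m hm
    rcases h m hm with h1 | h1
    · rw [h1, one_pow, one_pow]
    · rw [h1]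

end sds

/-! ## Counting multiples in a window -/

lemma cnt_Icc_one (k m : ℕ) : cnt (Finset.Icc 1 k) m = k / m := by
  unfold cnt
  rw [← Nat.Ioc_filter_dvd_card_eq_div k m]
  rfl

lemma cnt_window (n k m : ℕ) (hk : k ≤ n) :
    cnt (Finset.Icc (n - k + 1) n) m + (n - k) / m = n / m := by
  rw [← cnt_Icc_one (n - k), ← cnt_Icc_one n]
  unfold cnt
  rw [← Finset.card_union_of_disjoint]
  · congr 1
    ext i
    simp only [Finset.mem_union, Finset.mem_filter, Finset.mem_Icc]
    constructor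
    · rintro (h | h)
      · exact ⟨⟨by omega, by omega⟩, h.2⟩
      · exact ⟨⟨by omega, by omega⟩, h.2⟩
    · rintro ⟨h1, h2⟩
      rcases Nat.lt_or_ge (n - k) i with h3 | h3
      · left; exact ⟨⟨by omega, by omega⟩, h2⟩
      · right; exact ⟨⟨by omega, by omega⟩, h2⟩
  · rw [Finset.disjoint_left]
    intro i hi hi2
    simp only [Finset.mem_filter, Finset.mem_Icc] at hi hi2
    omega

/-- `⌊n/m⌋ - ⌊(n-k)/m⌋` is `⌊k/m⌋` or `⌊k/m⌋ + 1` according to the residues. -/
lemma div_sub (n k m : ℕ) (hk : k ≤ n) (hm : 1 ≤ m) :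
    n / m = (n - k) / m + k / m + if k % m ≤ n % m then 0 else 1 := by
  have h1 := Nat.div_add_mod n m
  have h2 := Nat.div_add_mod k m
  have h3 := Nat.mod_lt n hm
  have h4 := Nat.mod_lt k hm
  have hle : k / m ≤ n / m := Nat.div_le_div_right hk
  obtain ⟨d, hd⟩ : ∃ d, n / m = k / m + d := ⟨n / m - k / m, by omega⟩
  rw [hd, mul_add] at h1
  split_ifs with h
  · have h5 : n - k = m * d + (n % m - k % m) := by omega
    have h6 : (n - k) / m = d := by
      rw [h5, Nat.mul_add_div hm, Nat.div_eq_of_lt (by omega), add_zero]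
    omega
  · have hd1 : 1 ≤ d := by
      rcases Nat.eq_zero_or_pos d with h0 | h0
      · subst h0; omega
      · exact h0
    obtain ⟨d', rfl⟩ : ∃ d', d = d' + 1 := ⟨d - 1, by omega⟩
    rw [mul_add, mul_one] at h1
    have h5 : n - k = m * d' + (m + n % m - k % m) := by omega
    have h6 : (n - k) / m = d' := by
      rw [h5, Nat.mul_add_div hm, Nat.div_eq_of_lt (by omega), add_zero]
    omega

/-! ## The primitive parts when the discriminant is positive -/

section real

open Polynomial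

lemma cyc_lower (m : ℕ) (hm : 3 ≤ m) (q : ℝ) (hq : 1 < |q|) :
    (|q| - 1) ^ Nat.totient m < |eval q (cyclotomic m ℝ)| := by
  have h1 : (((eval q (cyclotomic m ℝ)) : ℝ) : ℂ) = eval (q : ℂ) (cyclotomic m ℂ) := by
    rw [← map_cyclotomic m (algebraMap ℝ ℂ), eval_map]
    exact (eval₂_at_apply (algebraMap ℝ ℂ) q).symm
  have h2 : |eval q (cyclotomic m ℝ)| = ∏ μ ∈ primitiveRoots m ℂ, ‖(q : ℂ) - μ‖ := by
    have h3 : |eval q (cyclotomic m ℝ)| = ‖(((eval q (cyclotomic m ℝ)) : ℝ) : ℂ)‖ := by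
      rw [Complex.norm_real, Real.norm_eq_abs]
    rw [h3, h1, cyclotomic_eq_prod_X_sub_primitiveRoots (Complex.isPrimitiveRoot_exp m (by omega)),
      eval_prod, norm_prod]
    simp
  rw [h2, ← Complex.card_primitiveRoots m, ← Finset.prod_const]
  apply Finset.prod_lt_prod_of_nonempty
  · intro _ _; linarith
  · intro μ hμ
    rw [mem_primitiveRoots (by omega)] at hμ
    have hn := hμ.norm'_eq_one (by omega)
    have hn2 : μ.re * μ.re + μ.im * μ.im = 1 := by
      rw [← Complex.normSq_apply, ← Complex.sq_norm, hn, one_pow]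
    have him : μ.im ≠ 0 := by
      intro h0
      rw [h0, mul_zero, add_zero] at hn2
      have h4 : μ ^ 2 = 1 := by
        apply Complex.ext
        · rw [sq, Complex.mul_re, h0]; simp [hn2]
        · rw [sq, Complex.mul_im, h0]; simp
      have h5 := Nat.le_of_dvd (by norm_num) (hμ.dvd_of_pow_eq_one 2 h4)
      omega
    have h6 : (|q| - 1) ^ 2 < ‖(q : ℂ) - μ‖ ^ 2 := by
      rw [Complex.sq_norm, Complex.normSq_apply]
      simp only [Complex.sub_re, Complex.ofReal_re, Complex.sub_im, Complex.ofReal_im, zero_sub]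
      have h7 : 0 < μ.im * μ.im := by
        rcases lt_or_gt_of_ne him with h | h
        · exact mul_pos_of_neg_of_neg h h
        · exact mul_pos h h
      have h8 : |μ.re| < 1 := by
        rw [abs_lt]
        constructor <;> nlinarith
      have h9 : q * μ.re ≤ |q| * |μ.re| := by
        rw [← abs_mul]; exact le_abs_self _
      have h10 : |q| ^ 2 = q ^ 2 := sq_abs q
      nlinarith [abs_nonneg q, abs_nonneg μ.re]
    exact lt_of_pow_lt_pow_left₀ 2 (norm_nonneg _) h6
  · rw [← Finset.card_pos, Complex.card_primitiveRoots]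
    exact Nat.totient_pos.2 (by omega)

/-- the homogeneous cyclotomic values -/
noncomputable def Bc (α β : ℝ) (m : ℕ) : ℝ := |β| ^ Nat.totient m * |eval (α / β) (cyclotomic m ℝ)|

lemma prod_Bc (α β : ℝ) (hβ : β ≠ 0) (m : ℕ) (hm : 0 < m) :
    ∏ d ∈ m.divisors, Bc α β d = |α ^ m - β ^ m| := by
  unfold Bc
  rw [Finset.prod_mul_distrib, Finset.prod_pow_eq_pow_sum, Nat.sum_totient, ← Finset.abs_prod,
    ← eval_prod, prod_cyclotomic_eq_X_pow_sub_one hm, ← abs_pow, ← abs_mul]
  congr 1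
  simp only [eval_sub, eval_pow, eval_X, eval_one, div_pow]
  field_simp

lemma Bc_one (α β : ℝ) (hβ : β ≠ 0) : Bc α β 1 = |α - β| := by
  unfold Bc
  rw [cyclotomic_one, Nat.totient_one, pow_one, ← abs_mul]
  congr 1
  simp only [eval_sub, eval_X, eval_one]
  field_simp

lemma U_binet {K : Type*} [Field K] (α β : K) (hs : α + β = P) (hp : α * β = Q) (n : ℕ) :
    (U P Q n : K) * (α - β) = α ^ n - β ^ n := by
  induction n using Nat.twoStepInduction with
  | zero => simp [U]
  | one => simp [U]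
  | more n ih1 ih2 =>
    rw [U]
    push_cast
    rw [← hs, ← hp]
    linear_combination (α + β) * ih2 - α * β * ih1

lemma prim_part_gt_one (hcop : IsCoprime P Q) (hU : ∀ n, 1 ≤ n → U P Q n ≠ 0)
    (α β : ℝ) (hs : α + β = P) (hp : α * β = Q) (hβ : β ≠ 0) (hab : 1 ≤ |α| - |β|)
    (m : ℕ) (hm : 3 ≤ m) : u P Q m ≠ Lp (u P Q) m := by
  have hpos : ∀ n, 1 ≤ n → 0 < u P Q n := fun n hn => Int.natAbs_pos.2 (hU n hn)
  have hg := gcd_u hcop
  have hne : α - β ≠ 0 := by
    intro h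
    have : α = β := by linarith
    rw [this] at hab
    linarith
  -- `A m = Bc m` for `m ≥ 2`
  have hA1 : A (u P Q) 1 = 1 := by
    simp [A, Lp, u, U]
  have key : ∀ m, 2 ≤ m → ((A (u P Q) m : ℕ) : ℝ) = Bc α β m := by
    intro m
    induction m using Nat.strong_induction_on with
    | _ m ih =>
      intro hm2
      have e1 := v_eq_prod (u P Q) hpos hg (n := m) (by omega)
      have e2 := prod_Bc α β hβ m (by omega)
      have e3 := congrArg (fun x : ℝ => |x|) (U_binet α β hs hp m)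
      rw [abs_mul, ← e2] at e3
      have e4 : |(U P Q m : ℝ)| = ((u P Q m : ℕ) : ℝ) := by
        unfold u
        rw [Nat.cast_natAbs, Int.cast_abs]
      rw [e4, e1] at e3
      push_cast at e3
      rw [← Nat.insert_self_properDivisors (by omega : m ≠ 0)] at e3
      rw [Finset.prod_insert (by simp), Finset.prod_insert (by simp)] at e3
      have h1 : 1 ∈ m.properDivisors := by
        rw [Nat.mem_properDivisors]; exact ⟨one_dvd _, by omega⟩
      rw [← Finset.mul_prod_erase _ _ h1, ← Finset.mul_prod_erase _ _ h1] at e3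
      have e5 : ∏ x ∈ m.properDivisors.erase 1, ((A (u P Q) x : ℕ) : ℝ) =
          ∏ x ∈ m.properDivisors.erase 1, Bc α β x := by
        apply Finset.prod_congr rfl
        intro d hd
        rw [Finset.mem_erase, Nat.mem_properDivisors] at hd
        have hd0 : d ≠ 0 := by
          rintro rfl
          have := Nat.eq_zero_of_zero_dvd hd.2.1
          omega
        exact ih d hd.2.2 (by omega)
      rw [hA1, Bc_one α β hβ, ← e5] at e3
      have h2 : ∏ x ∈ m.properDivisors.erase 1, ((A (u P Q) x : ℕ) : ℝ) ≠ 0 := by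
        rw [Finset.prod_ne_zero_iff]
        intro d hd
        rw [Finset.mem_erase, Nat.mem_properDivisors] at hd
        have hd0 : 1 ≤ d := Nat.pos_of_dvd_of_pos hd.2.1 (by omega)
        exact_mod_cast (A_pos (u P Q) hpos hg hd0).ne'
      have h3 : |α - β| ≠ 0 := abs_ne_zero.2 hne
      apply mul_right_cancel₀ (mul_ne_zero h3 h2)
      push_cast at e3
      linear_combination e3
  intro hcon
  have h1 := (A_eq_one (u P Q) hpos hg (m := m) (by omega)).2 hcon
  have h2 := key m (by omega)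
  rw [h1] at h2
  have hb : 0 < |β| := abs_pos.2 hβ
  have hq : 1 < |α / β| := by
    rw [abs_div, lt_div_iff₀ hb]; linarith
  have h3 := cyc_lower m hm (α / β) hq
  have h4 : 1 ≤ |β| ^ Nat.totient m * (|α / β| - 1) ^ Nat.totient m := by
    rw [← mul_pow]
    apply one_le_pow₀
    rw [abs_div, mul_sub, mul_div_cancel₀ _ hb.ne', mul_one]
    exact hab
  have h5 : |β| ^ Nat.totient m * (|α / β| - 1) ^ Nat.totient m < Bc α β m := by
    unfold Bc
    exact mul_lt_mul_of_pos_left h3 (pow_pos hb _)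
  push_cast at h2
  linarith

/-- for positive discriminant there are real roots with `|α| - |β| ≥ 1`. -/
lemma exists_real_roots (hP : P ≠ 0) (hQ : Q ≠ 0) (hΔ : 0 < P ^ 2 - 4 * Q) :
    ∃ α β : ℝ, α + β = P ∧ α * β = Q ∧ β ≠ 0 ∧ 1 ≤ |α| - |β| := by
  have hΔ' : (0 : ℝ) < (P : ℝ) ^ 2 - 4 * Q := by exact_mod_cast hΔ
  have hΔ1 : (1 : ℝ) ≤ (P : ℝ) ^ 2 - 4 * Q := by exact_mod_cast hΔ
  have hQ' : (Q : ℝ) ≠ 0 := by exact_mod_cast hQ
  set s := Real.sqrt ((P : ℝ) ^ 2 - 4 * Q) with hs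
  have hss : s ^ 2 = (P : ℝ) ^ 2 - 4 * Q := Real.sq_sqrt hΔ'.le
  have hspos : 0 < s := Real.sqrt_pos.2 hΔ'
  have hP2 : (1 : ℝ) ≤ (P : ℝ) ^ 2 := by
    have : 1 ≤ P ^ 2 := by
      have := sq_pos_of_ne_zero hP
      omega
    exact_mod_cast this
  -- general fact
  have key : ∀ a b : ℝ, a + b = P → a * b = Q → 0 < |a| - |b| → 1 ≤ |a| - |b| := by
    intro a b h1 h2 h3
    have h4 : (|a| - |b|) ^ 2 = (P : ℝ) ^ 2 - 2 * Q - 2 * |(Q : ℝ)| := by
      rw [← h1, ← h2, abs_mul]
      nlinarith [sq_abs a, sq_abs b]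
    have h5 : (1 : ℝ) ≤ (|a| - |b|) ^ 2 := by
      rw [h4]
      rcases abs_cases (Q : ℝ) with ⟨h6, _⟩ | ⟨h6, _⟩ <;> rw [h6] <;> linarith
    by_contra hcon
    push Not at hcon
    nlinarith
  rcases lt_or_gt_of_ne hP with hlt | hgt
  · -- `P < 0`
    have hlt' : (P : ℝ) < 0 := by exact_mod_cast hlt
    refine ⟨(P - s) / 2, (P + s) / 2, by ring, by nlinarith, ?_, ?_⟩
    · intro h0
      apply hQ'
      nlinarith
    · apply key _ _ (by ring) (by nlinarith)
      rw [abs_of_neg (by linarith : (P - s) / 2 < 0), sub_pos, abs_lt]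
      constructor <;> linarith
  · have hgt' : (0 : ℝ) < P := by exact_mod_cast hgt
    refine ⟨(P + s) / 2, (P - s) / 2, by ring, by nlinarith, ?_, ?_⟩
    · intro h0
      apply hQ'
      nlinarith
    · apply key _ _ (by ring) (by nlinarith)
      rw [abs_of_pos (by linarith : 0 < (P + s) / 2), sub_pos, abs_lt]
      constructor <;> linarith

end real

/-! ## Signs when the discriminant is positive -/

lemma U_pos (hP : 0 < P) (hΔ : 0 < P ^ 2 - 4 * Q) (n : ℕ) :
    0 < U P Q (n + 1) ∧ P * U P Q n ≤ 2 * U P Q (n + 1) ∧ 0 ≤ U P Q n := by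
  induction n with
  | zero => simp [U]
  | succ n ih =>
    obtain ⟨h1, h2, h3⟩ := ih
    have e : U P Q (n + 1 + 1) = P * U P Q (n + 1) - Q * U P Q n := by
      rw [show n + 1 + 1 = n + 2 by ring, U]
    have h4 : P * U P Q (n + 1) ≤ 2 * U P Q (n + 1 + 1) := by
      rw [e]
      have h5 : 4 * (Q * U P Q n) ≤ P ^ 2 * U P Q n := by nlinarith
      have h6 : P ^ 2 * U P Q n ≤ 2 * (P * U P Q (n + 1)) := by nlinarith
      nlinarith
    refine ⟨?_, h4, h1.le⟩
    have : 0 < P * U P Q (n + 1) := mul_pos hP h1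
    omega

lemma U_neg (n : ℕ) : U (-P) Q (n + 1) = (-1) ^ n * U P Q (n + 1) := by
  induction n using Nat.twoStepInduction with
  | zero => simp [U]
  | one => simp [U]
  | more n ih1 ih2 =>
    have e1 : U (-P) Q (n + 2 + 1) = -P * U (-P) Q (n + 1 + 1) - Q * U (-P) Q (n + 1) := by
      rw [show n + 2 + 1 = n + 1 + 2 by ring, U]
    have e2 : U P Q (n + 2 + 1) = P * U P Q (n + 1 + 1) - Q * U P Q (n + 1) := by
      rw [show n + 2 + 1 = n + 1 + 2 by ring, U]
    rw [e1, e2, ih1, ih2]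
    ring

/-! ## The main result -/

/-- The standing assumptions on `(P, Q)`: `PQ ≠ 0`, `P^2 - 4Q ≠ 0`, `gcd(P,Q) = 1`, and the quotient
of the roots of `x^2 - P x + Q` is not a root of unity. -/
def Regular (P Q : ℤ) : Prop :=
  P * Q ≠ 0 ∧ P ^ 2 - 4 * Q ≠ 0 ∧ IsCoprime P Q ∧
    ∀ α β : ℂ, α + β = P → α * β = Q → ∀ n : ℕ, 1 ≤ n → (α / β) ^ n ≠ 1

/-- the lcm-analogue `lcm(U_n, ..., U_{n-k+1}) / lcm(U_1, ..., U_k)` -/
noncomputable def lcmBinom (P Q : ℤ) (n k : ℕ) : ℚ :=
  ((Finset.Icc (n - k + 1) n).lcm (fun i => (U P Q i).natAbs) : ℕ) /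
    ((Finset.Icc 1 k).lcm (fun i => (U P Q i).natAbs) : ℕ)

/-- the `U`-binomial coefficient `(U_n ... U_{n-k+1}) / (U_1 ... U_k)` -/
noncomputable def uBinom (P Q : ℤ) (n k : ℕ) : ℚ :=
  (∏ i ∈ Finset.Icc (n - k + 1) n, (U P Q i : ℚ)) / ∏ i ∈ Finset.Icc 1 k, (U P Q i : ℚ)

lemma Regular.ne_zero (h : Regular P Q) (n : ℕ) (hn : 1 ≤ n) : U P Q n ≠ 0 := by
  obtain ⟨h1, h2, h3, h4⟩ := h
  obtain ⟨s, hs⟩ := IsAlgClosed.exists_pow_nat_eq ((P : ℂ) ^ 2 - 4 * Q) (by norm_num : 0 < 2)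
  have hQ : (Q : ℂ) ≠ 0 := by
    have : Q ≠ 0 := right_ne_zero_of_mul h1
    exact_mod_cast this
  have hsum : ((P : ℂ) + s) / 2 + (P - s) / 2 = P := by ring
  have hprod : ((P : ℂ) + s) / 2 * ((P - s) / 2) = Q := by linear_combination -hs / 4
  intro h0
  have hb := U_binet (((P : ℂ) + s) / 2) ((P - s) / 2) hsum hprod n
  rw [h0] at hb
  have hβ : ((P : ℂ) - s) / 2 ≠ 0 := by
    intro h; rw [h, mul_zero] at hprod; exact hQ hprod.symm
  apply h4 _ _ hsum hprod n hn
  rw [div_pow, div_eq_one_iff_eq (pow_ne_zero _ hβ)]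
  push_cast at hb
  linear_combination -hb

lemma main_iff (hcop : IsCoprime P Q) (hU : ∀ n, 1 ≤ n → U P Q n ≠ 0) (n k : ℕ) (hk : 1 ≤ k)
    (hkn : k ≤ n) :
    lcmBinom P Q n k = uBinom P Q n k ↔ (0 < uBinom P Q n k ∧
      ∀ m, 2 ≤ m → m ≤ k → (U P Q m).natAbs ≠ m.properDivisors.lcm (fun d => (U P Q d).natAbs) →
        k % m ≤ n % m) := by
  have hpos : ∀ n, 1 ≤ n → 0 < u P Q n := fun n hn => Int.natAbs_pos.2 (hU n hn)
  have hg := gcd_u hcop
  have hW : Finset.Icc (n - k + 1) n ⊆ Finset.Icc 1 n := by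
    intro i hi; rw [Finset.mem_Icc] at *; omega
  have hV : Finset.Icc 1 k ⊆ Finset.Icc 1 n := by
    intro i hi; rw [Finset.mem_Icc] at *; omega
  -- counting
  have hcnt : ∀ m ∈ Finset.Icc 1 n, cnt (Finset.Icc (n - k + 1) n) m = cnt (Finset.Icc 1 k) m +
      if k % m ≤ n % m then 0 else 1 := by
    intro m hm
    rw [Finset.mem_Icc] at hm
    have h1 := cnt_window n k m hkn
    have h2 := div_sub n k m hkn hm.1
    rw [cnt_Icc_one]
    omega
  have hle : ∀ m ∈ Finset.Icc 1 n, min 1 (cnt (Finset.Icc (n - k + 1) n) m) +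
      cnt (Finset.Icc 1 k) m ≤ cnt (Finset.Icc (n - k + 1) n) m +
        min 1 (cnt (Finset.Icc 1 k) m) := by
    intro m hm
    have := hcnt m hm
    split_ifs at this <;> omega
  have hmain := prod_eq_iff (u P Q) hpos hg n _ _ hW hV hle
  have hcond : (∀ m ∈ Finset.Icc 1 n, A (u P Q) m = 1 ∨
      min 1 (cnt (Finset.Icc (n - k + 1) n) m) + cnt (Finset.Icc 1 k) m =
        cnt (Finset.Icc (n - k + 1) n) m + min 1 (cnt (Finset.Icc 1 k) m)) ↔
      ∀ m, 2 ≤ m → m ≤ k → (U P Q m).natAbs ≠ m.properDivisors.lcm (fun d => (U P Q d).natAbs) →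
        k % m ≤ n % m := by
    constructor
    · intro h m hm2 hmk hne
      rcases h m (Finset.mem_Icc.2 ⟨by omega, by omega⟩) with h1 | h1
      · exact absurd ((A_eq_one (u P Q) hpos hg (by omega)).1 h1) hne
      · have h2 := hcnt m (Finset.mem_Icc.2 ⟨by omega, by omega⟩)
        have h3 : 1 ≤ cnt (Finset.Icc 1 k) m := by
          rw [cnt_Icc_one]; exact Nat.div_pos hmk (by omega)
        by_contra hcon
        rw [if_neg hcon] at h2
        omega
    · intro h m hm
      have h2 := hcnt m hm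
      rw [Finset.mem_Icc] at hm
      by_cases hA : A (u P Q) m = 1
      · exact Or.inl hA
      · right
        rcases Nat.lt_or_ge k m with hkm | hkm
        · have h3 : cnt (Finset.Icc 1 k) m = 0 := by
            rw [cnt_Icc_one]; exact Nat.div_eq_of_lt hkm
          rw [h3] at h2 ⊢
          split_ifs at h2 <;> omega
        · have h4 : k % m ≤ n % m := by
            rcases Nat.lt_or_ge m 2 with h5 | h5
            · obtain rfl : m = 1 := by omega
              rw [Nat.mod_one, Nat.mod_one]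
            · apply h m h5 hkm
              intro h6
              exact hA ((A_eq_one (u P Q) hpos hg (by omega)).2 h6)
          rw [if_pos h4] at h2
          omega
  rw [hcond] at hmain
  -- relate to the rational quotients
  have hLV : 0 < (Finset.Icc 1 k).lcm (u P Q) := by
    apply Nat.pos_of_ne_zero
    rw [Ne, Finset.lcm_eq_zero_iff]
    rintro ⟨i, hi, h0⟩
    have := hpos i (Finset.mem_Icc.1 hi).1
    omega
  have hLW : 0 < (Finset.Icc (n - k + 1) n).lcm (u P Q) := by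
    apply Nat.pos_of_ne_zero
    rw [Ne, Finset.lcm_eq_zero_iff]
    rintro ⟨i, hi, h0⟩
    have := hpos i (by have := (Finset.mem_Icc.1 hi).1; omega)
    omega
  have hPV : (0 : ℚ) < (∏ i ∈ Finset.Icc 1 k, u P Q i : ℕ) := by
    exact_mod_cast Finset.prod_pos fun i hi => hpos i (Finset.mem_Icc.1 hi).1
  have hLV' : (0 : ℚ) < ((Finset.Icc 1 k).lcm (u P Q) : ℕ) := by exact_mod_cast hLV
  have hLW' : (0 : ℚ) < ((Finset.Icc (n - k + 1) n).lcm (u P Q) : ℕ) := by exact_mod_cast hLW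
  have habs : |uBinom P Q n k| = ((∏ i ∈ Finset.Icc (n - k + 1) n, u P Q i : ℕ) : ℚ) /
      ((∏ i ∈ Finset.Icc 1 k, u P Q i : ℕ) : ℚ) := by
    unfold uBinom u
    rw [abs_div, Finset.abs_prod, Finset.abs_prod]
    push_cast
    simp only [Nat.cast_natAbs, Int.cast_abs]
  have hl : lcmBinom P Q n k = ((Finset.Icc (n - k + 1) n).lcm (u P Q) : ℕ) /
      ((Finset.Icc 1 k).lcm (u P Q) : ℕ) := rfl
  have hlpos : 0 < lcmBinom P Q n k := by rw [hl]; exact div_pos hLW' hLV'
  have hiff : lcmBinom P Q n k = |uBinom P Q n k| ↔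
      (∏ i ∈ Finset.Icc (n - k + 1) n, u P Q i) * (Finset.Icc 1 k).lcm (u P Q) =
        (Finset.Icc (n - k + 1) n).lcm (u P Q) * ∏ i ∈ Finset.Icc 1 k, u P Q i := by
    rw [hl, habs, div_eq_div_iff hLV'.ne' hPV.ne']
    constructor
    · intro h
      have h2 : (((Finset.Icc (n - k + 1) n).lcm (u P Q) * ∏ i ∈ Finset.Icc 1 k, u P Q i : ℕ) : ℚ) =
        (((∏ i ∈ Finset.Icc (n - k + 1) n, u P Q i) * (Finset.Icc 1 k).lcm (u P Q) : ℕ) : ℚ) := by
        rw [Nat.cast_mul, Nat.cast_mul]; exact h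
      exact (Nat.cast_injective h2).symm
    · intro h
      rw [← Nat.cast_mul, ← Nat.cast_mul, h]
  rw [← hmain, ← hiff]
  constructor
  · intro h
    have h1 : 0 < uBinom P Q n k := by rw [← h]; exact hlpos
    exact ⟨h1, by rw [abs_of_pos h1]; exact h⟩
  · rintro ⟨h1, h2⟩
    rw [abs_of_pos h1] at h2
    exact h2

lemma uBinom_range (n k : ℕ) (hkn : k ≤ n) :
    uBinom P Q n k = ∏ j ∈ Finset.range k, ((U P Q (n - k + j + 1) : ℚ) / (U P Q (j + 1) : ℚ)) := by
  unfold uBinom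
  have h1 : ∏ i ∈ Finset.Icc (n - k + 1) n, (U P Q i : ℚ) =
      ∏ j ∈ Finset.range k, (U P Q (n - k + j + 1) : ℚ) := by
    have : Finset.Icc (n - k + 1) n = Finset.Ico (n - k + 1) (n + 1) := by
      ext i; simp only [Finset.mem_Icc, Finset.mem_Ico]; omega
    rw [this, Finset.prod_Ico_eq_prod_range, show n + 1 - (n - k + 1) = k by omega]
    apply Finset.prod_congr rfl
    intro j _
    rw [show n - k + 1 + j = n - k + j + 1 by ring]
  have h2 : ∏ i ∈ Finset.Icc 1 k, (U P Q i : ℚ) = ∏ j ∈ Finset.range k, (U P Q (j + 1) : ℚ) := by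
    have : Finset.Icc 1 k = Finset.Ico 1 (k + 1) := by
      ext i; simp only [Finset.mem_Icc, Finset.mem_Ico]; omega
    rw [this, Finset.prod_Ico_eq_prod_range, show k + 1 - 1 = k by omega]
    apply Finset.prod_congr rfl
    intro j _
    rw [add_comm]
  rw [h1, h2, Finset.prod_div_distrib]

lemma sign_iff (hP : P ≠ 0) (hΔ : 0 < P ^ 2 - 4 * Q) (n k : ℕ) (hkn : k ≤ n) :
    0 < uBinom P Q n k ↔ (0 < P ∨ Even (k * (n - k))) := by
  rcases lt_or_gt_of_ne hP with hlt | hgt
  · -- `P < 0`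
    have hpos : ∀ i, (0 : ℚ) < (U (-P) Q (i + 1) : ℚ) := by
      intro i
      have := (U_pos (P := -P) (Q := Q) (by omega) (by rw [neg_sq]; exact hΔ) i).1
      exact_mod_cast this
    have hU : ∀ i, (U P Q (i + 1) : ℚ) = (-1) ^ i * (U (-P) Q (i + 1) : ℚ) := by
      intro i
      have := U_neg (P := -P) (Q := Q) i
      rw [neg_neg] at this
      rw [this]; push_cast; ring
    have h1 : uBinom P Q n k = ((-1 : ℚ)) ^ (k * (n - k)) *
        ∏ j ∈ Finset.range k, ((U (-P) Q (n - k + j + 1) : ℚ) / (U (-P) Q (j + 1) : ℚ)) := by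
      rw [uBinom_range n k hkn, mul_comm k (n - k), pow_mul]
      have h2 : (((-1 : ℚ)) ^ (n - k)) ^ k = ∏ _j ∈ Finset.range k, ((-1 : ℚ)) ^ (n - k) := by
        rw [Finset.prod_const, Finset.card_range]
      rw [h2, ← Finset.prod_mul_distrib]
      apply Finset.prod_congr rfl
      intro j _
      rw [hU, hU]
      have h3 := (hpos j).ne'
      have h4 : ((-1 : ℚ)) ^ j ≠ 0 := pow_ne_zero _ (by norm_num)
      rw [pow_add]
      field_simp
    have h5 : 0 < ∏ j ∈ Finset.range k, ((U (-P) Q (n - k + j + 1) : ℚ) / (U (-P) Q (j + 1) : ℚ)) :=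
      Finset.prod_pos fun j _ => div_pos (hpos _) (hpos _)
    rw [h1]
    constructor
    · intro h
      right
      by_contra hcon
      rw [Nat.not_even_iff_odd] at hcon
      rw [hcon.neg_one_pow] at h
      linarith
    · rintro (h | h)
      · omega
      · rw [h.neg_one_pow, one_mul]; exact h5
  · have hpos : ∀ i, (0 : ℚ) < (U P Q (i + 1) : ℚ) := by
      intro i
      have := (U_pos hgt hΔ i).1
      exact_mod_cast this
    constructor
    · intro _; exact Or.inl hgt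
    · intro _
      rw [uBinom_range n k hkn]
      exact Finset.prod_pos fun j _ => div_pos (hpos _) (hpos _)

/-- **The pairs `(k,n)` with `{n k}_U = C(n,k)_U`.**

For every regular `(P,Q)` and all `1 ≤ k ≤ n`, equality holds iff `C(n,k)_U > 0` and
`k mod m ≤ n mod m` for every `2 ≤ m ≤ k` such that `|U_m|` is not the lcm of the `|U_d|` over the
proper divisors `d` of `m`.

If `P^2 - 4Q > 0`, this becomes: (`P > 0` or `k(n-k)` is even) and `k mod m ≤ n mod m` for every
`2 ≤ m ≤ k`, where `m = 2` is left out when `P = ±1`. -/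
theorem result : ∀ P Q : ℤ, Regular P Q → ∀ n k : ℕ, 1 ≤ k → k ≤ n →
    (lcmBinom P Q n k = uBinom P Q n k ↔ (0 < uBinom P Q n k ∧
      ∀ m, 2 ≤ m → m ≤ k → (U P Q m).natAbs ≠ m.properDivisors.lcm (fun d => (U P Q d).natAbs) →
        k % m ≤ n % m)) ∧
    (0 < P ^ 2 - 4 * Q → (lcmBinom P Q n k = uBinom P Q n k ↔ ((0 < P ∨ Even (k * (n - k))) ∧
      ∀ m, 2 ≤ m → m ≤ k → (m = 2 → |P| ≠ 1) → k % m ≤ n % m))) := by
  intro P Q hreg n k hk hkn
  have hU := hreg.ne_zero
  have hcop := hreg.2.2.1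
  have hP : P ≠ 0 := left_ne_zero_of_mul hreg.1
  have hQ : Q ≠ 0 := right_ne_zero_of_mul hreg.1
  have h1 := main_iff hcop hU n k hk hkn
  refine ⟨h1, fun hΔ => ?_⟩
  rw [h1, sign_iff hP hΔ n k hkn]
  obtain ⟨α, β, hs, hp, hβ, hab⟩ := exists_real_roots hP hQ hΔ
  have hm3 : ∀ m, 3 ≤ m → (U P Q m).natAbs ≠ m.properDivisors.lcm (fun d => (U P Q d).natAbs) :=
    fun m hm => prim_part_gt_one hcop hU α β hs hp hβ hab m hm
  have hm2 : (U P Q 2).natAbs ≠ (Nat.properDivisors 2).lcm (fun d => (U P Q d).natAbs) ↔ |P| ≠ 1 := by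
    have e1 : U P Q 2 = P := by simp [U]
    have e2 : (Nat.properDivisors 2).lcm (fun d => (U P Q d).natAbs) = 1 := by
      have : Nat.properDivisors 2 = {1} := by decide
      rw [this, Finset.lcm_singleton]
      simp [U]
    rw [e1, e2, Int.abs_eq_natAbs]
    omega
  constructor
  · rintro ⟨h2, h3⟩
    refine ⟨h2, fun m hm hmk hcond => h3 m hm hmk ?_⟩
    rcases Nat.lt_or_ge m 3 with h | h
    · obtain rfl : m = 2 := by omega
      exact hm2.2 (hcond rfl)
    · exact hm3 m h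
  · rintro ⟨h2, h3⟩
    refine ⟨h2, fun m hm hmk hcond => h3 m hm hmk ?_⟩
    rintro rfl
    exact hm2.1 hcond

end Pool.Agent.Results.MP_763eff_nt.Criterion
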